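import Pool.Agent.Helper89.N9.HubB

/-! MP_9b91d1_co, row HUBCX: the hub complex (helper89). -/

open scoped RealInnerProductSpace Topology

namespace H89Hub

open Pool.Agent.Helper30.N9 Pool.Agent.Helper30.N9.PlaneGraph N9Cell

variable {V : Type} [Fintype V] [DecidableEq V] {M : PlaneGraph V} {p : V → E3}
    {h : M.Face → E3} {T : Set M.Face} {ν : E3}

theorem okf {d : M.G.Dart} (hd : M.fc d ∈ T ∨ M.fc d.symm ∈ T) :
    ∃ e : M.G.Dart, e.fst = d.fst ∧ M.fc e ∈ T := by
  rcases hd with hd | hd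
  · exact ⟨d, rfl, hd⟩
  · exact ⟨M.nxt d.symm, M.nxt_fst _, by rw [fc_nxt]; exact hd⟩

theorem oks {d : M.G.Dart} (hd : M.fc d ∈ T ∨ M.fc d.symm ∈ T) :
    ∃ e : M.G.Dart, e.fst = d.snd ∧ M.fc e ∈ T := by
  rcases hd with hd | hd
  · exact ⟨M.nxt d, M.nxt_fst _, by rw [fc_nxt]; exact hd⟩
  · exact ⟨d.symm, rfl, hd⟩

theorem bdT {d : M.G.Dart} (hd : d ∈ M.bd T) : M.fc d ∈ T ∨ M.fc d.symm ∈ T :=
  Or.inl (mem_bd.mp hd).1

def hfst (M : PlaneGraph V) (T : Set M.Face) : HD M T → HU M T
  | Sum.inl d => some ⟨d.1.fst, okf d.2⟩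
  | Sum.inr (Sum.inl _) => none
  | Sum.inr (Sum.inr e) => some ⟨e.1.fst, okf (bdT e.2)⟩

def hsnd (M : PlaneGraph V) (T : Set M.Face) : HD M T → HU M T
  | Sum.inl d => some ⟨d.1.snd, oks d.2⟩
  | Sum.inr (Sum.inl e) => some ⟨e.1.snd, oks (bdT e.2)⟩
  | Sum.inr (Sum.inr _) => none

def hrev (sc : Equiv.Perm {d : M.G.Dart // d ∈ M.bd T}) : HD M T → HD M T
  | Sum.inl d => Sum.inl ⟨d.1.symm, d.2.symm⟩
  | Sum.inr (Sum.inl e) => Sum.inr (Sum.inr (sc e))
  | Sum.inr (Sum.inr e) => Sum.inr (Sum.inl (sc.symm e))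

open Classical in
noncomputable def hleft (M : PlaneGraph V) (T : Set M.Face) : HD M T → HC M T
  | Sum.inl d => if hT : M.fc d.1 ∈ T then Sum.inl ⟨M.fc d.1, hT⟩ else
      Sum.inr ⟨d.1.symm, mem_bd.mpr ⟨d.2.resolve_left hT, hT⟩⟩
  | Sum.inr (Sum.inl e) => Sum.inr e
  | Sum.inr (Sum.inr e) => Sum.inr e

def hpt (p : V → E3) (ν : E3) : HU M T → E3
  | none => -ν
  | some v => p v.1

theorem hleft_pos {d : {d : M.G.Dart // M.fc d ∈ T ∨ M.fc d.symm ∈ T}} (hT : M.fc d.1 ∈ T) :
    hleft M T (Sum.inl d) = Sum.inl ⟨M.fc d.1, hT⟩ := by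
  unfold hleft
  exact dif_pos hT

theorem hleft_neg {d : {d : M.G.Dart // M.fc d ∈ T ∨ M.fc d.symm ∈ T}} (hT : M.fc d.1 ∉ T) :
    hleft M T (Sum.inl d) = Sum.inr ⟨d.1.symm, mem_bd.mpr ⟨d.2.resolve_left hT, hT⟩⟩ := by
  unfold hleft
  exact dif_neg hT

theorem hleft_eq_inl (d : HD M T) (w : {w : M.Face // w ∈ T}) :
    hleft M T d = Sum.inl w ↔ ∃ x, d = Sum.inl x ∧ M.fc x.1 = w.1 := by
  constructor
  · intro hh
    rcases d with x | e | e
    · refine ⟨x, rfl, ?_⟩
      by_cases hT : M.fc x.1 ∈ T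
      · rw [hleft_pos hT] at hh
        exact congrArg Subtype.val (Sum.inl_injective hh)
      · rw [hleft_neg hT] at hh
        exact absurd hh (by simp)
    · exact absurd hh (by simp [hleft])
    · exact absurd hh (by simp [hleft])
  · rintro ⟨x, rfl, hx⟩
    have hT : M.fc x.1 ∈ T := by rw [hx]; exact w.2
    rw [hleft_pos hT]
    apply congrArg Sum.inl
    exact Subtype.ext hx

theorem hleft_eq_inr (d : HD M T) (e : {d : M.G.Dart // d ∈ M.bd T}) :
    hleft M T d = Sum.inr e ↔ d = Sum.inl ⟨e.1.symm, (bdT e.2).symm⟩ ∨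
      d = Sum.inr (Sum.inl e) ∨ d = Sum.inr (Sum.inr e) := by
  constructor
  · intro hh
    rcases d with x | e' | e'
    · left
      by_cases hT : M.fc x.1 ∈ T
      · rw [hleft_pos hT] at hh
        exact absurd hh (by simp)
      · rw [hleft_neg hT] at hh
        have h1 := congrArg Subtype.val (Sum.inr_injective hh)
        have h2 : x.1 = e.1.symm := by rw [← h1]; exact (SimpleGraph.Dart.symm_symm _).symm
        apply congrArg Sum.inl
        exact Subtype.ext h2
    · right; left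
      have h1 : (Sum.inr e' : HC M T) = Sum.inr e := hh
      rw [Sum.inr_injective h1]
    · right; right
      have h1 : (Sum.inr e' : HC M T) = Sum.inr e := hh
      rw [Sum.inr_injective h1]
  · rintro (rfl | rfl | rfl)
    · rw [hleft_neg (mem_bd.mp e.2).2]
      apply congrArg Sum.inr
      exact Subtype.ext (SimpleGraph.Dart.symm_symm _)
    · rfl
    · rfl

theorem sumA {A : Type*} [AddCommMonoid A] [Fintype (HD M T)] [DecidableEq (HC M T)]
    (w : {w : M.Face // w ∈ T}) (f : HD M T → A) (F : M.G.Dart → A)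
    (hF : ∀ x, f (Sum.inl x) = F x.1) :
    ∑ d ∈ Finset.univ.filter (fun d => hleft M T d = Sum.inl w), f d
      = ∑ e ∈ M.fdarts w.1, F e := by
  symm
  refine Finset.sum_bij (fun e he => Sum.inl ⟨e, Or.inl (by rw [(mem_fdarts M).mp he]; exact w.2)⟩)
    ?_ ?_ ?_ ?_
  · intro e he
    rw [Finset.mem_filter]
    exact ⟨Finset.mem_univ _, (hleft_eq_inl _ _).mpr ⟨_, rfl, (mem_fdarts M).mp he⟩⟩
  · intro a ha b hb hab
    exact congrArg Subtype.val (Sum.inl_injective hab)
  · intro b hb
    rw [Finset.mem_filter] at hb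
    obtain ⟨x, rfl, hx⟩ := (hleft_eq_inl _ _).mp hb.2
    exact ⟨x.1, (mem_fdarts M).mpr hx, rfl⟩
  · intro e he
    exact (hF ⟨e, Or.inl (by rw [(mem_fdarts M).mp he]; exact w.2)⟩).symm

theorem sumB {A : Type*} [AddCommMonoid A] [Fintype (HD M T)] [DecidableEq (HC M T)]
    (e : {d : M.G.Dart // d ∈ M.bd T}) (f : HD M T → A) :
    ∑ d ∈ Finset.univ.filter (fun d => hleft M T d = Sum.inr e), f d
      = f (Sum.inr (Sum.inl e)) + f (Sum.inl ⟨e.1.symm, (bdT e.2).symm⟩)
        + f (Sum.inr (Sum.inr e)) := by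
  classical
  have h1 : Finset.univ.filter (fun d => hleft M T d = Sum.inr e)
      = {Sum.inr (Sum.inl e), Sum.inl ⟨e.1.symm, (bdT e.2).symm⟩, Sum.inr (Sum.inr e)} := by
    ext d
    rw [Finset.mem_filter, hleft_eq_inr]
    simp only [Finset.mem_univ, true_and, Finset.mem_insert, Finset.mem_singleton]
    tauto
  rw [h1, Finset.sum_insert, Finset.sum_insert, Finset.sum_singleton, add_assoc]
  · simp
  · simp

theorem sc_ne {sc : Equiv.Perm {d : M.G.Dart // d ∈ M.bd T}}
    (hsc : ∀ e, (sc e).1.fst = e.1.snd) (e : {d : M.G.Dart // d ∈ M.bd T}) : sc e ≠ e := by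
  intro hh
  have h1 := hsc e
  rw [hh] at h1
  exact e.1.adj.ne h1

theorem sc_symm_fst {sc : Equiv.Perm {d : M.G.Dart // d ∈ M.bd T}}
    (hsc : ∀ e, (sc e).1.fst = e.1.snd) (e : {d : M.G.Dart // d ∈ M.bd T}) :
    (sc.symm e).1.snd = e.1.fst := by
  have h1 := hsc (sc.symm e)
  rw [Equiv.apply_symm_apply] at h1
  exact h1.symm

theorem hrev_hrev (sc : Equiv.Perm {d : M.G.Dart // d ∈ M.bd T}) (d : HD M T) :
    hrev sc (hrev sc d) = d := by
  rcases d with x | e | e
  · rfl
  · simp [hrev]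
  · simp [hrev]

theorem hfst_hrev {sc : Equiv.Perm {d : M.G.Dart // d ∈ M.bd T}}
    (hsc : ∀ e, (sc e).1.fst = e.1.snd) (d : HD M T) : hfst M T (hrev sc d) = hsnd M T d := by
  rcases d with x | e | e
  · rfl
  · apply congrArg some
    exact Subtype.ext (hsc e)
  · rfl

theorem hsnd_hrev {sc : Equiv.Perm {d : M.G.Dart // d ∈ M.bd T}}
    (hsc : ∀ e, (sc e).1.fst = e.1.snd) (d : HD M T) : hsnd M T (hrev sc d) = hfst M T d := by
  rw [← hfst_hrev hsc, hrev_hrev]

theorem SA_inl [Fintype (HD M T)] [DecidableEq (HC M T)] (w : {w : M.Face // w ∈ T})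
    (x : E3) : SA (Finset.univ.filter (fun d => hleft M T d = Sum.inl w))
      (fun d => hpt p ν (hfst M T d)) (fun d => hpt p ν (hsnd M T d)) x
      = SA (M.fdarts w.1) (M.ga p) (M.gb p) x :=
  sumA w _ (fun e => Om x (M.ga p e) (M.gb p e)) (fun _ => rfl)

theorem SA_inr [Fintype (HD M T)] [DecidableEq (HC M T)] (e : {d : M.G.Dart // d ∈ M.bd T})
    (x : E3) : SA (Finset.univ.filter (fun d => hleft M T d = Sum.inr e))
      (fun d => hpt p ν (hfst M T d)) (fun d => hpt p ν (hsnd M T d)) x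
      = Om x (-ν) (p e.1.snd) + Om x (p e.1.snd) (p e.1.fst) + Om x (p e.1.fst) (-ν) :=
  sumB e _

theorem tri_det (H : HubHyp M p T ν) {e : M.G.Dart} (he : e ∈ M.bd T) :
    0 < det3 (-ν) (p e.snd) (p e.fst) := by
  have h1 := H.strict e he
  have h2 : det3 (-ν) (p e.snd) (p e.fst) = det3 (p e.fst) (p e.snd) ν := by
    simp only [det3, PiLp.neg_apply]
    ring
  rw [h2]
  exact h1

theorem nu_not_arc (H : HubHyp M p T ν) {e : M.G.Dart} (he : e ∈ M.bd T) :
    ν ∉ arc (p e.fst) (p e.snd) := by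
  have h1 := not_mem_arc_of_det (H.strict e he).ne'
  rwa [nrm_unit H.nu] at h1

open Classical in
theorem hubcx : ST_HUBCX := by
  intro V _ _ M p h T ν G H
  have hq := G.inC
  have hpi := Real.pi_pos
  obtain ⟨sc, hsc⟩ := exists_sc hq H
  have hg : ∀ e : {d : M.G.Dart // d ∈ M.bd T}, ∃ g : E3, ‖g‖ = 1 ∧ 0 < ⟪g, -ν⟫ ∧
      0 < ⟪g, p e.1.snd⟫ ∧ 0 < ⟪g, p e.1.fst⟫ := fun e => exists_centre (tri_det H e.2)
  choose g hg1 hg2 hg3 hg4 using hg
  have hνn : ‖-ν‖ = 1 := by rw [norm_neg]; exact H.nu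
  have hunit : ∀ u : HU M T, ‖hpt p ν u‖ = 1 := by
    intro u
    rcases u with _ | v
    · exact hνn
    · exact hq.unit _
  have hinj : Function.Injective (hpt p ν : HU M T → E3) := by
    have key : ∀ v : {v : V // ∃ d : M.G.Dart, d.fst = v ∧ M.fc d ∈ T}, p v.1 ≠ -ν := by
      rintro ⟨v, d, rfl, hd⟩
      exact ne_neg_nu H hd
    intro a b hab
    rcases a with _ | a <;> rcases b with _ | b
    · rfl
    · exact absurd (show p b.1 = -ν from hab.symm) (key b)
    · exact absurd (show p a.1 = -ν from hab) (key a)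
    · apply congrArg some
      exact Subtype.ext (hq.inj hab)
  have hsndv : ∀ e : {d : M.G.Dart // d ∈ M.bd T}, p e.1.snd = p (sc e).1.fst := fun e => by
    rw [hsc]
  -- winding numbers
  have hWl : ∀ (w : {w : M.Face // w ∈ T}) (z : E3),
      W (Finset.univ.filter (fun d => hleft M T d = Sum.inl w))
        (fun d => hpt p ν (hfst M T d)) (fun d => hpt p ν (hsnd M T d)) (h w.1) z
      = M.FW p h w.1 z := by
    intro w z
    unfold FW W
    rw [SA_inl, SA_inl]
  have hWr : ∀ (e : {d : M.G.Dart // d ∈ M.bd T}) (z : E3),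
      W (Finset.univ.filter (fun d => hleft M T d = Sum.inr e))
        (fun d => hpt p ν (hfst M T d)) (fun d => hpt p ν (hsnd M T d)) (g e) z
      = W (Finset.univ : Finset (Fin 3)) ![-ν, p e.1.snd, p e.1.fst]
        ![p e.1.snd, p e.1.fst, -ν] (g e) z := by
    intro e z
    unfold W
    rw [SA_inr, SA_inr, tri_SA, tri_SA]
  -- total area
  have htot : ∑ c : HC M T, SA (Finset.univ.filter (fun d => hleft M T d = c))
      (fun d => hpt p ν (hfst M T d)) (fun d => hpt p ν (hsnd M T d))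
      ((Sum.elim (fun w => h w.1) g : HC M T → E3) c) = 4 * Real.pi := by
    rw [Fintype.sum_sum_type]
    have e1 : ∑ w : {w : M.Face // w ∈ T}, SA (Finset.univ.filter
        (fun d => hleft M T d = Sum.inl w)) (fun d => hpt p ν (hfst M T d))
        (fun d => hpt p ν (hsnd M T d)) ((Sum.elim (fun w => h w.1) g : HC M T → E3) (Sum.inl w))
        = ∑ w ∈ TF T, SA (M.fdarts w) (M.ga p) (M.gb p) (h w) := by
      rw [Finset.sum_subtype (TF T) (fun x => mem_TF)
        (fun w => SA (M.fdarts w) (M.ga p) (M.gb p) (h w))]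
      apply Finset.sum_congr rfl
      intro w _
      exact SA_inl w _
    have e2 : ∑ e : {d : M.G.Dart // d ∈ M.bd T}, SA (Finset.univ.filter
        (fun d => hleft M T d = Sum.inr e)) (fun d => hpt p ν (hfst M T d))
        (fun d => hpt p ν (hsnd M T d)) ((Sum.elim (fun w => h w.1) g : HC M T → E3) (Sum.inr e))
        = - SA (M.bd T) (M.ga p) (M.gb p) (-ν) := by
      unfold SA
      rw [Finset.sum_subtype (M.bd T) (fun x => Iff.rfl)
        (fun d => Om (-ν) (M.ga p d) (M.gb p d)), ← Finset.sum_neg_distrib]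
      apply Finset.sum_congr rfl
      intro e _
      have h1 := SA_inr (p := p) (ν := ν) e (g e)
      unfold SA at h1
      refine h1.trans ?_
      rw [tri_area hνn (hq.unit _) (hq.unit _) (hg1 e) (hg2 e) (hg3 e) (hg4 e)]
      exact Om_swap (slit_of_not_mem H.nu (hq.unit _) (hq.unit _) (hq.q_ne e.1)
        (hq.ne_neg e.1) (nu_not_arc H e.2))
    rw [e1, e2, area_T G H]
    ring
  refine ⟨{ p := hpt p ν, fst := hfst M T, snd := hsnd M T, rev := hrev sc, left := hleft M T,
            unit := hunit, inj := hinj, rev_rev := hrev_hrev sc, fst_rev := hfst_hrev hsc,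
            ne := ?_, nn := ?_, closed := ?_, surj := ?_, inc := ?_, lr := ?_, embed := ?_,
            vert := ?_, hc := Sum.elim (fun w => h w.1) g, cen := ?_, w01 := ?_,
            wsum := ?_ }, sc, ⟨hsc, rfl, fun _ => rfl, fun _ => ⟨_, rfl, rfl⟩,
            fun _ => ⟨_, rfl, rfl⟩, fun _ => ⟨_, rfl, rfl⟩, ?_, ?_, fun _ => rfl,
            fun _ => ⟨_, rfl, rfl⟩, fun _ => ⟨_, rfl, rfl⟩, fun _ => rfl, fun _ => rfl,
            fun _ => rfl, fun _ => rfl, fun _ => rfl, fun _ => rfl⟩⟩
  · -- ne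
    rintro (x | e | e) hh
    · have h1 : (⟨x.1.fst, okf x.2⟩ : {v : V // ∃ d : M.G.Dart, d.fst = v ∧ M.fc d ∈ T})
          = ⟨x.1.snd, oks x.2⟩ := Option.some_injective _ hh
      exact x.1.adj.ne (congrArg Subtype.val h1)
    · exact absurd hh (by simp [hfst, hsnd])
    · exact absurd hh (by simp [hfst, hsnd])
  · -- nn
    rintro (x | e | e) hh
    · exact hq.ne_neg x.1 hh
    · have h1 : -ν = -p e.1.snd := hh
      rw [hsndv] at h1
      exact ne_nu H (sc e).2 (neg_injective h1).symm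
    · have h1 : p e.1.fst = - -ν := hh
      rw [neg_neg] at h1
      exact ne_nu H e.2 h1
  · -- closed
    intro c u
    have key : ∀ (f : HD M T → HU M T),
        (Finset.univ.filter (fun d => hleft M T d = c ∧ f d = u)).card
        = ∑ d ∈ Finset.univ.filter (fun d => hleft M T d = c), if f d = u then 1 else 0 := by
      intro f
      rw [← Finset.card_filter, Finset.filter_filter]
    rw [key, key]
    rcases c with w | e
    · rcases u with _ | v
      · rw [sumA w _ (fun _ => 0) (fun x => if_neg (by simp [hsnd])),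
          sumA w _ (fun _ => 0) (fun x => if_neg (by simp [hfst]))]
      · rw [sumA w _ (fun d => if d.snd = v.1 then 1 else 0) (fun x => by
            simp only [hsnd, Option.some.injEq, Subtype.ext_iff]),
          sumA w _ (fun d => if d.fst = v.1 then 1 else 0) (fun x => by
            simp only [hfst, Option.some.injEq, Subtype.ext_iff])]
        exact sum_snd w.1 (fun x => if x = v.1 then 1 else 0)
    · rw [sumB, sumB]
      have a1 : hsnd M T (Sum.inr (Sum.inl e))
          = hfst M T (Sum.inl ⟨e.1.symm, (bdT e.2).symm⟩) := rfl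
      have a2 : hsnd M T (Sum.inl ⟨e.1.symm, (bdT e.2).symm⟩)
          = hfst M T (Sum.inr (Sum.inr e)) := rfl
      have a3 : hsnd M T (Sum.inr (Sum.inr e)) = hfst M T (Sum.inr (Sum.inl e)) := rfl
      rw [a1, a2, a3]
      ring
  · -- surj
    rintro (w | e)
    · have h1 : M.fc w.1.out = w.1 := Quotient.out_eq w.1
      exact ⟨Sum.inl ⟨w.1.out, Or.inl (by rw [h1]; exact w.2)⟩,
        (hleft_eq_inl _ _).mpr ⟨_, rfl, h1⟩⟩
    · exact ⟨Sum.inr (Sum.inl e), rfl⟩
  · -- inc
    rintro (_ | ⟨v, d, rfl, hd⟩)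
    · obtain ⟨b, hb⟩ := H.ne
      exact ⟨Sum.inr (Sum.inl ⟨b, hb⟩), rfl⟩
    · exact ⟨Sum.inl ⟨d, Or.inl hd⟩, rfl⟩
  · -- lr
    rintro (x | e | e) hh
    · have hr : hrev sc (Sum.inl x) = Sum.inl ⟨x.1.symm, x.2.symm⟩ := rfl
      rw [hr] at hh
      by_cases h1 : M.fc x.1 ∈ T
      · by_cases h2 : M.fc x.1.symm ∈ T
        · rw [hleft_pos h1, hleft_pos (d := ⟨x.1.symm, x.2.symm⟩) h2] at hh
          exact fc_symm_ne G.per G.c3 x.1 (congrArg Subtype.val (Sum.inl_injective hh))
        · rw [hleft_pos h1, hleft_neg (d := ⟨x.1.symm, x.2.symm⟩) h2] at hh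
          exact absurd hh (by simp)
      · rw [hleft_neg h1, hleft_pos (d := ⟨x.1.symm, x.2.symm⟩) (x.2.resolve_left h1)] at hh
        exact absurd hh (by simp)
    · have h1 : (Sum.inr e : HC M T) = Sum.inr (sc e) := hh
      exact sc_ne hsc e (Sum.inr_injective h1).symm
    · have h1 : (Sum.inr e : HC M T) = Sum.inr (sc.symm e) := hh
      have h2 := Sum.inr_injective h1
      apply sc_ne hsc e
      rw [Equiv.eq_symm_apply] at h2
      exact h2
  · -- embed
    have hub : ∀ (b b' : {d : M.G.Dart // d ∈ M.bd T}), b ≠ b' → ∀ x,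
        x ∈ arc (-ν) (p b.1.fst) → x ∈ arc (-ν) (p b'.1.fst) → x = -ν := by
      intro b b' hbb x hx hx'
      apply hubB hq H b.2 b'.2 _ hx hx'
      intro hh
      exact hbb (Subtype.ext (out_unique hq H b.2 b'.2 hh))
    rintro (d | d | d) (e | e | e) h1 h2 x hx hx'
    · apply embedG G (d := d.1) (e := e.1) _ _ hx hx'
      · intro hh
        exact h1 (congrArg Sum.inl (Subtype.ext hh))
      · intro hh
        exact h2 (congrArg Sum.inl (Subtype.ext hh))
    · have hx2 : x ∈ arc (-ν) (p (sc e).1.fst) := by rw [← hsndv]; exact hx'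
      have h3 := hubA' hq H (sc e).2 d.2 hx2 hx
      rw [h3] at hx ⊢
      rcases vertG G _ d.1 hx with h4 | h4
      · left; rw [h4]; rfl
      · right; rw [h4]; rfl
    · have hx2 : x ∈ arc (-ν) (p e.1.fst) := by rw [arc_comm]; exact hx'
      have h3 := hubA' hq H e.2 d.2 hx2 hx
      rw [h3] at hx ⊢
      rcases vertG G _ d.1 hx with h4 | h4
      · left; rw [h4]; rfl
      · right; rw [h4]; rfl
    · have hx2 : x ∈ arc (-ν) (p (sc d).1.fst) := by rw [← hsndv]; exact hx
      right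
      rw [hubA' hq H (sc d).2 e.2 hx2 hx', ← hsndv]
      rfl
    · left
      apply hub (sc d) (sc e) _ x (by rw [← hsndv]; exact hx) (by rw [← hsndv]; exact hx')
      intro hh
      exact h1 (by rw [sc.injective hh])
    · left
      apply hub (sc d) e _ x (by rw [← hsndv]; exact hx) (by rw [arc_comm]; exact hx')
      intro hh
      exact h2 (by rw [← hh]; rfl)
    · have hx2 : x ∈ arc (-ν) (p d.1.fst) := by rw [arc_comm]; exact hx
      left
      rw [hubA' hq H d.2 e.2 hx2 hx']
      rfl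
    · right
      apply hub d (sc e) _ x (by rw [arc_comm]; exact hx) (by rw [← hsndv]; exact hx')
      intro hh
      apply h2
      rw [hh]
      simp [hrev]
    · right
      apply hub d e _ x (by rw [arc_comm]; exact hx) (by rw [arc_comm]; exact hx')
      intro hh
      exact h1 (by rw [hh])
  · -- vert
    have hubv : ∀ (v : {v : V // ∃ d : M.G.Dart, d.fst = v ∧ M.fc d ∈ T})
        (b : {d : M.G.Dart // d ∈ M.bd T}), p v.1 ∈ arc (-ν) (p b.1.fst) → v.1 = b.1.fst := by
      rintro ⟨v, d, rfl, hd⟩ b hx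
      exact hq.inj (hubA hq H b.2 hx (H.left b.1 b.2 d hd))
    rintro (_ | v) (d | d | d) hx
    · exact absurd hx (hub_not_arc H d.2)
    · left; rfl
    · right; rfl
    · rcases vertG G v.1 d.1 hx with h4 | h4
      · left
        exact congrArg some (Subtype.ext h4)
      · right
        exact congrArg some (Subtype.ext h4)
    · right
      have h3 := hubv v (sc d) (by rw [← hsndv]; exact hx)
      rw [hsc] at h3
      exact congrArg some (Subtype.ext h3)
    · left
      have h3 := hubv v d (by rw [arc_comm]; exact hx)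
      exact congrArg some (Subtype.ext h3)
  · -- cen
    rintro (w | e)
    · refine ⟨(G.cen w.1).1, ?_⟩
      intro d hd
      obtain ⟨x, rfl, hx⟩ := (hleft_eq_inl _ _).mp (Finset.mem_filter.mp hd).2
      exact (G.cen w.1).2 x.1 ((mem_fdarts M).mpr hx)
    · refine ⟨hg1 e, ?_⟩
      intro d hd
      rcases (hleft_eq_inr _ _).mp (Finset.mem_filter.mp hd).2 with rfl | rfl | rfl
      · exact ⟨hg3 e, hg4 e⟩
      · exact ⟨hg2 e, hg3 e⟩
      · exact ⟨hg4 e, hg2 e⟩
  · -- w01
    rintro (w | e) z hz ho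
    · have h1 := FW_01 G.per G.c3 hq G.cen w.1 hz (fun d hd =>
        ho (Sum.inl ⟨d, Or.inl (by rw [(mem_fdarts M).mp hd]; exact w.2)⟩))
      have h2 := hWl w z
      rcases h1 with h1 | h1
      · left; exact h2.trans h1
      · right; exact h2.trans h1
    · have h1 := tri_01 hνn (hq.unit e.1.snd) (hq.unit e.1.fst) (hg1 e) (hg2 e) (hg3 e) (hg4 e)
        (tri_det H e.2) hz (ho (Sum.inr (Sum.inl e)))
        (ho (Sum.inl ⟨e.1.symm, (bdT e.2).symm⟩)) (ho (Sum.inr (Sum.inr e)))
      have h2 := hWr e z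
      rcases h1 with h1 | h1
      · left; exact h2.trans h1
      · right; exact h2.trans h1
  · -- wsum
    intro z hz ho
    have h0 : ∑ c : HC M T, SA (Finset.univ.filter (fun d => hleft M T d = c))
        (fun d => hpt p ν (hfst M T d)) (fun d => hpt p ν (hsnd M T d)) (-z) = 0 := by
      unfold SA
      rw [Finset.sum_fiberwise Finset.univ (hleft M T)
        (fun d => Om (-z) (hpt p ν (hfst M T d)) (hpt p ν (hsnd M T d)))]
      obtain ⟨f, hf⟩ : ∃ f : HD M T → ℝ, f = fun d =>
        Om (-z) (hpt p ν (hfst M T d)) (hpt p ν (hsnd M T d)) := ⟨_, rfl⟩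
      have h1 : ∀ d, f (hrev sc d) = - f d := by
        intro d
        rw [hf]
        simp only
        rw [hfst_hrev hsc, hsnd_hrev hsc]
        apply Om_swap
        have hne : hpt p ν (hfst M T d) ≠ hpt p ν (hsnd M T d) := by
          intro hh
          have h3 := hinj hh
          rcases d with x | e | e
          · have h4 : (⟨x.1.fst, okf x.2⟩ : {v : V // ∃ d : M.G.Dart, d.fst = v ∧ M.fc d ∈ T})
              = ⟨x.1.snd, oks x.2⟩ := Option.some_injective _ h3
            exact x.1.adj.ne (congrArg Subtype.val h4)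
          · exact absurd h3 (by simp [hfst, hsnd])
          · exact absurd h3 (by simp [hfst, hsnd])
        have hnn : hpt p ν (hfst M T d) ≠ - hpt p ν (hsnd M T d) := by
          intro hh
          rcases d with x | e | e
          · exact hq.ne_neg x.1 hh
          · have h1 : -ν = -p e.1.snd := hh
            rw [hsndv] at h1
            exact ne_nu H (sc e).2 (neg_injective h1).symm
          · have h1 : p e.1.fst = - -ν := hh
            rw [neg_neg] at h1
            exact ne_nu H e.2 h1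
        exact slit_of_not_mem hz (hunit _) (hunit _) hne hnn (ho d)
      have h2 : ∑ d, f (hrev sc d) = ∑ d, f d :=
        Finset.sum_bij' (fun d _ => hrev sc d) (fun d _ => hrev sc d) (by simp) (by simp)
          (fun d _ => hrev_hrev sc d) (fun d _ => hrev_hrev sc d) (by simp)
      have h3 : ∑ d, f (hrev sc d) = - ∑ d, f d := by
        rw [← Finset.sum_neg_distrib]
        exact Finset.sum_congr rfl (fun d _ => h1 d)
      rw [← hf]
      linarith
    have h4 : ∑ c : HC M T, W (Finset.univ.filter (fun d => hleft M T d = c))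
        (fun d => hpt p ν (hfst M T d)) (fun d => hpt p ν (hsnd M T d))
        ((Sum.elim (fun w => h w.1) g : HC M T → E3) c) z = 1 := by
      unfold W
      rw [← Finset.sum_div, Finset.sum_sub_distrib, h0, htot, sub_zero,
        div_self (by positivity)]
    exact h4
  · -- left, inside
    intro d hT
    exact hleft_pos hT
  · -- left, outside
    intro d hT
    have h1 : M.fc d.1 ∉ T := by
      have := (mem_bd.mp hT).2
      rwa [SimpleGraph.Dart.symm_symm] at this
    exact hleft_neg h1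

end H89Hub
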