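import Pool.Agent.Helper89.N9.FanB
import Pool.Agent.Helper93.N9.Reg1
import Pool.Agent.Helper74.N9.Reg

/-! MP_9b91d1_co, row OP2 (helper89). -/

open scoped RealInnerProductSpace Topology

namespace Pool.Agent.Helper30.N9

open H89Fan PlaneGraph

namespace H89Fan

theorem det3_mid_comb (x y z u : E3) (s t : ℝ) :
    det3 x (s • y + t • z) u = s * det3 x y u + t * det3 x z u := by
  simp only [det3, PiLp.add_apply, PiLp.smul_apply, smul_eq_mul]
  ring

theorem convex_det_mid (x z : E3) : Convex ℝ {y : E3 | 0 < det3 x y z} := by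
  have h1 : {y : E3 | 0 < det3 x y z} = {y : E3 | det3 x z y < 0} := by
    ext y
    simp only [Set.mem_ofPred_eq]
    rw [det3_swap x y z]
    constructor <;> intro h <;> linarith
  rw [h1]
  exact convex_det_neg x z

theorem open_det_pos (x z : E3) : IsOpen {y : E3 | 0 < det3 x z y} :=
  isOpen_lt continuous_const (continuous_det3 x z)

theorem open_det_mid (x z : E3) : IsOpen {y : E3 | 0 < det3 x y z} := by
  have h1 : {y : E3 | 0 < det3 x y z} = {y : E3 | det3 x z y < 0} := by
    ext y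
    simp only [Set.mem_ofPred_eq]
    rw [det3_swap x y z]
    constructor <;> intro h <;> linarith
  rw [h1]
  exact isOpen_lt (continuous_det3 x z) continuous_const

variable {V : Type} [Fintype V] [DecidableEq V] {M : PlaneGraph V} {L : Type} {p q : V → E3}
  {h h' : M.Face → E3} {a : E3} {l : M.Face → L} {s t : V} {k : ℕ} {th : ℕ → ℝ} {r : ℕ → E3}
  {lam : ℕ → L}

/-- the arcs of the boundary darts of lune i in q -/
theorem arc_lune (F : M.FanL p a l s t k th r lam) {i : ℕ} (hi : i < k) {rq : ℕ → E3}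
    (hmap : ∀ i ≤ k, ∀ v, M.OnE l v → ∀ c : ℝ, 0 ≤ c → p v = c • r i + ⟪a, p v⟫ • a →
      q v = c • rq i + ⟪a, p v⟫ • q s) {d : M.G.Dart}
    (hd : M.Bd (fun w => l w = lam i) d) {z : E3} (hz : z ∈ arc (q d.fst) (q d.snd)) :
    ∃ c b : ℝ, 0 ≤ c ∧ (z = c • rq i + b • q s ∨ z = c • rq (i + 1) + b • q s) := by
  obtain ⟨_, α, β, hα, hβ, he⟩ := hz
  have key : ∀ j ≤ k, OnR a (r j) (p d.fst) → OnR a (r j) (p d.snd) →
      ∃ c b : ℝ, 0 ≤ c ∧ z = c • rq j + b • q s := by
    rintro j hj ⟨c1, hc1, he1⟩ ⟨c2, hc2, he2⟩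
    have hE := bd_E0 hd
    have g1 := hmap j hj d.fst ⟨d, rfl, hE⟩ c1 hc1 he1
    have hE' : M.E0 l d.symm := by
      intro hh
      apply hE
      rw [SimpleGraph.Dart.symm_symm] at hh
      exact hh.symm
    have g2 := hmap j hj d.snd ⟨d.symm, rfl, hE'⟩ c2 hc2 he2
    refine ⟨α * c1 + β * c2, α * ⟪a, p d.fst⟫ + β * ⟪a, p d.snd⟫, by positivity, ?_⟩
    rw [he, g1, g2]
    simp only [smul_add, add_smul, smul_smul]
    abel
  rcases bd_ray F hi hd with ⟨h1, h2, _⟩ | ⟨h1, h2, _⟩
  · obtain ⟨c, b, hc, e⟩ := key i hi.le h1 h2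
    exact ⟨c, b, hc, Or.inl e⟩
  · obtain ⟨c, b, hc, e⟩ := key (i + 1) hi h1 h2
    exact ⟨c, b, hc, Or.inr e⟩

/-- T covers an open connected set to the left of the left meridian -/
theorem cover (Sp : M.Std p h) (Sq : M.Std q h') (FA : M.Fan p a l s t)
    (F : M.FanL p a l s t k th r lam) {i : ℕ} (hi : i < k) {rq : ℕ → E3}
    (hrq : ‖rq i‖ = 1 ∧ ⟪q s, rq i⟫ = 0)
    (hmap : ∀ i ≤ k, ∀ v, M.OnE l v → ∀ c : ℝ, 0 ≤ c → p v = c • r i + ⟪a, p v⟫ • a →
      q v = c • rq i + ⟪a, p v⟫ • q s) {U : Set E3} (hUo : IsOpen U)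
    (hUc : IsPreconnected U)
    (hav : ∀ y ∈ U, ∀ c b : ℝ, 0 ≤ c → y ≠ c • rq i + b • q s ∧ y ≠ c • rq (i + 1) + b • q s)
    (hne : ∀ c b : ℝ, 0 < c → ∀ᶠ ε : ℝ in 𝓝[>] 0,
      c • rq i + b • q s + ε • crs (q s) (rq i) ∈ U) {m : E3} (hm : m ∈ U) :
    M.CovN q h' (fun w => l w = lam i) m := by
  have hU0 : ∀ y ∈ U, y ≠ 0 := by
    intro y hy h0
    apply (hav y hy 0 0 le_rfl).1
    rw [h0, zero_smul, zero_smul, add_zero]
  have havoid : ∀ y ∈ U, ∀ d, M.Bd (fun w => l w = lam i) d →
      nrm y ∉ arc (q d.fst) (q d.snd) := by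
    intro y hy d hd hz
    obtain ⟨c, b, hc, he⟩ := arc_lune F hi hmap hd hz
    have hyn : y = ‖y‖ • nrm y := by
      unfold nrm
      rw [smul_smul, mul_inv_cancel₀ (norm_ne_zero_iff.mpr (hU0 y hy)), one_smul]
    have h1 := hav y hy (‖y‖ * c) (‖y‖ * b) (by positivity)
    rcases he with he | he
    · apply h1.1
      calc y = ‖y‖ • nrm y := hyn
        _ = _ := by rw [he, smul_add, smul_smul, smul_smul]
    · apply h1.2
      calc y = ‖y‖ • nrm y := hyn
        _ = _ := by rw [he, smul_add, smul_smul, smul_smul]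
  -- a covered point
  have hcovpt : ∃ y ∈ U, M.Cov q h' (fun w => l w = lam i) (nrm y) := by
    obtain ⟨d, h1, ⟨c, hc, he⟩, h2⟩ := top_left F hi
    have hs : p d.fst = a := by rw [h1, FA.ps]
    have hc0 : 0 < c := by
      apply c_pos (Sp.inc.unit _) _ _ hc he
      · rw [← hs]; exact (Sp.inc.q_ne d).symm
      · rw [← hs]; intro hh; exact Sp.inc.ne_neg d (by rw [hh, neg_neg])
    have hE := bd_E0 h2
    have hE' : M.E0 l d.symm := by
      intro hh
      apply hE
      rw [SimpleGraph.Dart.symm_symm] at hh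
      exact hh.symm
    have g2 := hmap i hi.le d.snd ⟨d.symm, rfl, hE'⟩ c hc he
    have hqs : q d.fst = q s := by rw [h1]
    obtain ⟨p0, p1, p2, p3⟩ := pt_props (Sq.inc.unit d.fst) (Sq.inc.unit d.snd)
      (Sq.inc.q_ne d) (Sq.inc.ne_neg d) one_pos
    obtain ⟨δ, hδ, hball⟩ := N9Ha.st_REG2 V M q h' Sq d _ p1 p2 p3
    obtain ⟨w, hw⟩ : ∃ w, w = q d.fst + (1 : ℝ) • q d.snd := ⟨_, rfl⟩
    rw [← hw] at p0 hball
    have hwn : 0 < ‖w‖⁻¹ := inv_pos.mpr (norm_pos_iff.mpr p0)
    have hx0 : nrm w = (‖w‖⁻¹ * c) • rq i + (‖w‖⁻¹ * (1 + ⟪a, p d.snd⟫)) • q s := by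
      unfold nrm
      rw [← smul_smul, ← smul_smul, ← smul_add]
      apply congrArg (fun z => ‖w‖⁻¹ • z)
      rw [hw, hqs, one_smul, g2, add_smul, one_smul]
      abel
    have ev1 := hne (‖w‖⁻¹ * c) (‖w‖⁻¹ * (1 + ⟪a, p d.snd⟫)) (by positivity)
    rw [← hx0] at ev1
    have hcurve : Filter.Tendsto (fun ε : ℝ => nrm w + ε • crs (q s) (rq i)) (𝓝[>] 0)
        (𝓝 (nrm w)) := by
      have h1 : Continuous (fun ε : ℝ => nrm w + ε • crs (q s) (rq i)) := by fun_prop
      have h2 := h1.tendsto 0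
      simp only [zero_smul, add_zero] at h2
      exact h2.mono_left nhdsWithin_le_nhds
    obtain ⟨ε, e1, e2, e3⟩ := (ev1.and ((hcurve.eventually (Metric.ball_mem_nhds _ hδ)).and
      (self_mem_nhdsWithin : ∀ᶠ ε : ℝ in 𝓝[>] 0, 0 < ε))).exists
    have e3' : 0 < ε := e3
    refine ⟨_, e1, ?_⟩
    have hdet : 0 < det3 (q d.fst) (q d.snd) (nrm w + ε • crs (q s) (rq i)) := by
      rw [hqs, g2, hx0, det3_mid_comb]
      have f1 : det3 (q s) (q s) ((‖w‖⁻¹ * c) • rq i + (‖w‖⁻¹ * (1 + ⟪a, p d.snd⟫)) • q s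
          + ε • crs (q s) (rq i)) = 0 := by
        simp only [det3]
        ring
      have f2 : det3 (q s) (rq i) ((‖w‖⁻¹ * c) • rq i
          + (‖w‖⁻¹ * (1 + ⟪a, p d.snd⟫)) • q s + ε • crs (q s) (rq i)) = ε := by
        rw [det3_add_right, det3_add_right, det3_smul_right, det3_smul_right, det3_smul_right,
          det3_self_right, det3_self_left, det3_crs, crs_one (Sq.inc.unit s) hrq.1 hrq.2]
        ring
      rw [f1, f2, mul_zero, add_zero]
      positivity
    have hcv := (hball _ e2).2 hdet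
    obtain ⟨k1, k2, w', k3, k4⟩ := hcv
    exact ⟨k1, k2, w', by rw [k3]; exact h2.1, k4⟩
  obtain ⟨y, hy, hcy⟩ := hcovpt
  obtain ⟨δ, hδ, hball⟩ := Metric.isOpen_iff.mp hUo m hm
  refine ⟨δ, hδ, ?_⟩
  intro y' hy'
  refine ⟨hU0 y' (hball hy'), fun hoff => ?_⟩
  exact st_REG1 V M q h' Sq _ U hUc hU0 havoid y hy y' (hball hy') hoff hcy

end H89Fan

theorem st_OP2 (hLH : ST_LH) : ST_OP2 := by
  intro V _ _ M L p q h h' a l s t k th r lam om Sp Sq LM LE FA F SW i hi hgap hd hqt rq hrq hrne
    hrqk hmap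
  have hpi := Real.pi_pos
  have hxu := Sq.inc.unit s
  have hr0 := r_unit FA.ua F hi.le
  have hr1 := r_unit FA.ua F (i := i + 1) hi
  have har0 := a_r F hi.le
  have har1 := a_r F (i := i + 1) hi
  have hκ := nu_pos FA.ua F hi hgap
  obtain ⟨n1, n2⟩ := half_inner hr0 hr1
  have hν_a : ⟪nrm (r i + r (i + 1)), a⟫ = 0 := by
    unfold nrm
    rw [real_inner_smul_left, inner_add_left, real_inner_comm, har0, real_inner_comm, har1]
    ring
  obtain ⟨u1, x1⟩ := hrq i hi.le
  obtain ⟨u2, x2⟩ := hrq (i + 1) hi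
  -- the core
  have core : ∀ m : E3, ‖m‖ = 1 → ⟪m, q s⟫ = 0 → ∀ μ : ℝ, ⟪m, rq i⟫ = μ →
      ⟪m, rq (i + 1)⟫ = μ → -(‖r i + r (i + 1)‖ / 2) < μ →
      M.CovN q h' (fun w => l w = lam i) (-m) → False := by
    intro m hm hms μ hμ1 hμ2 hμ hcov
    have hlh := hLH V M L p q h h' a l s t k th r lam om Sp Sq LM LE FA F SW i hi hgap hd m hm (by
      intro d hbd
      have hE := bd_E0 hbd
      rcases bd_ray F hi hbd with ⟨⟨c, hc, he⟩, _, _⟩ | ⟨⟨c, hc, he⟩, _, _⟩
      · have g := hmap i hi.le d.fst ⟨d, rfl, hE⟩ c hc he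
        rw [g, inner_add_right, real_inner_smul_right, real_inner_smul_right, hμ1, hms,
          mul_zero, add_zero]
        rw [he, inner_add_right, real_inner_smul_right, real_inner_smul_right, n1, hν_a,
          mul_zero, add_zero]
        nlinarith
      · have g := hmap (i + 1) hi d.fst ⟨d, rfl, hE⟩ c hc he
        rw [g, inner_add_right, real_inner_smul_right, real_inner_smul_right, hμ2, hms,
          mul_zero, add_zero]
        rw [he, inner_add_right, real_inner_smul_right, real_inner_smul_right, n2, hν_a,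
          mul_zero, add_zero]
        nlinarith) hcov
    obtain ⟨d, c, hbd, hc, he⟩ := strict_dart Sp.inc FA F hi
    have h1 := hlh d hbd
    have g := hmap (i + 1) hi d.fst ⟨d, rfl, bd_E0 hbd⟩ c hc.le he
    rw [g, inner_add_right, real_inner_smul_right, real_inner_smul_right, hμ2, hms,
      mul_zero, add_zero] at h1
    rw [he, inner_add_right, real_inner_smul_right, real_inner_smul_right, n2, hν_a,
      mul_zero, add_zero] at h1
    nlinarith
  have cov := fun {U : Set E3} => cover (U := U) Sp Sq FA F hi ⟨u1, x1⟩ hmap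
  have hcr := crs_one hxu u1 x1
  have hcurve : ∀ c b : ℝ, Filter.Tendsto
      (fun ε : ℝ => c • rq i + b • q s + ε • crs (q s) (rq i)) (𝓝[>] 0)
      (𝓝 (c • rq i + b • q s)) := by
    intro c b
    have h1 : Continuous (fun ε : ℝ => c • rq i + b • q s + ε • crs (q s) (rq i)) := by fun_prop
    have h2 := h1.tendsto 0
    simp only [zero_smul, add_zero] at h2
    exact h2.mono_left nhdsWithin_le_nhds
  have hleft : ∀ c b ε : ℝ, det3 (q s) (rq i) (c • rq i + b • q s + ε • crs (q s) (rq i))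
      = ε := by
    intro c b ε
    rw [det3_add_right, det3_add_right, det3_smul_right, det3_smul_right, det3_smul_right,
      det3_self_right, det3_self_left, det3_crs, hcr]
    ring
  obtain ⟨D, hD⟩ : ∃ D, D = det3 (q s) (rq i) (rq (i + 1)) := ⟨_, rfl⟩
  have dR : ∀ c b : ℝ, det3 (q s) (rq i) (c • rq (i + 1) + b • q s) = c * D := by
    intro c b
    rw [det3_add_right, det3_smul_right, det3_smul_right, det3_self_left, ← hD]
    ring
  have dR0 : ∀ c b : ℝ, det3 (q s) (rq i) (c • rq i + b • q s) = 0 := by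
    intro c b
    rw [det3_add_right, det3_smul_right, det3_smul_right, det3_self_left, det3_self_right]
    ring
  have dM : ∀ c b : ℝ, det3 (q s) (c • rq i + b • q s) (rq (i + 1)) = c * D := by
    intro c b
    rw [det3_mid_comb, ← hD]
    simp only [det3]
    ring
  have dM0 : ∀ c b : ℝ, det3 (q s) (c • rq (i + 1) + b • q s) (rq (i + 1)) = 0 := by
    intro c b
    rw [det3_mid_comb]
    simp only [det3]
    ring
  have hrs : ⟪rq i, q s⟫ = 0 := by rw [real_inner_comm]; exact x1
  have hrs2 : ⟪rq (i + 1), q s⟫ = 0 := by rw [real_inner_comm]; exact x2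
  obtain ⟨f1, f2⟩ := half_inner u1 u2
  have f3 : ⟪nrm (rq i + rq (i + 1)), q s⟫ = 0 := by
    unfold nrm
    rw [real_inner_smul_left, inner_add_left, hrs, hrs2]
    ring
  have hnn := norm_nonneg (rq i + rq (i + 1))
  have dS1 : det3 (q s) (rq i) (rq i + rq (i + 1)) = D := by
    rw [det3_add_right, det3_self_right, ← hD, zero_add]
  have dS2 : det3 (q s) (rq i + rq (i + 1)) (rq (i + 1)) = D := by
    have := det3_mid_comb (q s) (rq i) (rq (i + 1)) (rq (i + 1)) 1 1
    rw [one_smul, one_smul, det3_self_right, ← hD] at this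
    rw [this]; ring
  have dS3 : det3 (q s) (rq (i + 1)) (rq i + rq (i + 1)) = -D := by
    rw [det3_swap (q s) (rq i + rq (i + 1)) (rq (i + 1)), dS2]
  have det0 : ∀ u : E3, det3 (q s) u 0 = 0 := by intro u; simp [det3]
  by_contra hcon
  rw [← hD] at hcon
  rcases lt_or_ge 0 D with hD0 | hD0
  · -- case A
    have hσ : ⟪rq i, rq (i + 1)⟫ < ⟪r i, r (i + 1)⟫ := by
      by_contra hc
      exact hcon ⟨hD0, not_lt.mp hc⟩
    have hlt : ‖rq i + rq (i + 1)‖ < ‖r i + r (i + 1)‖ := by
      have g1 := sum_norm u1 u2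
      have g2 := sum_norm hr0 hr1
      have : ‖rq i + rq (i + 1)‖ ^ 2 < ‖r i + r (i + 1)‖ ^ 2 := by rw [g1, g2]; linarith
      exact lt_of_pow_lt_pow_left₀ 2 hκ.le this
    have hS0 : rq i + rq (i + 1) ≠ 0 := by
      intro h0
      rw [h0, det0] at dS1
      linarith
    have hSn : 0 < ‖rq i + rq (i + 1)‖⁻¹ := inv_pos.mpr (norm_pos_iff.mpr hS0)
    apply core (-nrm (rq i + rq (i + 1))) (by rw [norm_neg, norm_nrm hS0])
      (by rw [inner_neg_left, f3, neg_zero]) (-(‖rq i + rq (i + 1)‖ / 2))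
      (by rw [inner_neg_left, f1]) (by rw [inner_neg_left, f2]) (by linarith)
    rw [neg_neg]
    apply cov (U := {y | 0 < det3 (q s) (rq i) y} ∩ {y | 0 < det3 (q s) y (rq (i + 1))})
      ((open_det_pos _ _).inter (open_det_mid _ _))
      ((convex_det_pos _ _).inter (convex_det_mid _ _)).isPreconnected
    · rintro y ⟨g1, g2⟩ c b hc
      constructor
      · rintro rfl
        simp only [Set.mem_ofPred_eq] at g1
        rw [dR0] at g1
        exact lt_irrefl _ g1
      · rintro rfl
        simp only [Set.mem_ofPred_eq] at g2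
        rw [dM0] at g2
        exact lt_irrefl _ g2
    · intro c b hc
      have ev2 : ∀ᶠ ε : ℝ in 𝓝[>] 0,
          c • rq i + b • q s + ε • crs (q s) (rq i) ∈ {y | 0 < det3 (q s) y (rq (i + 1))} := by
        apply (hcurve c b).eventually
        apply (open_det_mid _ _).mem_nhds
        simp only [Set.mem_ofPred_eq]
        rw [dM]
        positivity
      filter_upwards [ev2, self_mem_nhdsWithin] with ε e1 e2
      refine ⟨?_, e1⟩
      simp only [Set.mem_ofPred_eq]
      rw [hleft]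
      exact e2
    · constructor
      · simp only [Set.mem_ofPred_eq]
        rw [det3_nrm, dS1]
        positivity
      · simp only [Set.mem_ofPred_eq]
        rw [det3_swap (q s) (rq (i + 1)) (nrm (rq i + rq (i + 1))), det3_nrm, dS3, mul_neg,
          neg_neg]
        positivity
  · -- cases B and C
    have hsub : ∀ y ∈ {y | 0 < det3 (q s) (rq i) y} ∪ {y | 0 < det3 (q s) y (rq (i + 1))},
        ∀ c b : ℝ, 0 ≤ c → y ≠ c • rq i + b • q s ∧ y ≠ c • rq (i + 1) + b • q s := by
      intro y hy c b hc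
      have hcD : c * D ≤ 0 := mul_nonpos_of_nonneg_of_nonpos hc hD0
      constructor
      · rintro rfl
        rcases hy with g | g
        · simp only [Set.mem_ofPred_eq] at g
          rw [dR0] at g
          exact lt_irrefl _ g
        · simp only [Set.mem_ofPred_eq] at g
          rw [dM] at g
          linarith
      · rintro rfl
        rcases hy with g | g
        · simp only [Set.mem_ofPred_eq] at g
          rw [dR] at g
          linarith
        · simp only [Set.mem_ofPred_eq] at g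
          rw [dM0] at g
          exact lt_irrefl _ g
    have hcov : ∀ y0, 0 < det3 (q s) (rq i) y0 → 0 < det3 (q s) y0 (rq (i + 1)) →
        ∀ m, 0 < det3 (q s) (rq i) m → M.CovN q h' (fun w => l w = lam i) m := by
      intro y0 g1 g2 m hm
      apply cov (U := {y | 0 < det3 (q s) (rq i) y} ∪ {y | 0 < det3 (q s) y (rq (i + 1))})
        ((open_det_pos _ _).union (open_det_mid _ _))
        (IsPreconnected.union y0 g1 g2 (convex_det_pos _ _).isPreconnected
          (convex_det_mid _ _).isPreconnected) hsub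
      · intro c b hc
        filter_upwards [self_mem_nhdsWithin] with ε e2
        left
        simp only [Set.mem_ofPred_eq]
        rw [hleft]
        exact e2
      · left
        exact hm
    rcases hD0.lt_or_eq with hD1 | hD1
    · -- case B
      have hS0 : rq i + rq (i + 1) ≠ 0 := by
        intro h0
        rw [h0, det0] at dS1
        linarith
      have hSn : 0 < ‖rq i + rq (i + 1)‖⁻¹ := inv_pos.mpr (norm_pos_iff.mpr hS0)
      apply core (nrm (rq i + rq (i + 1))) (norm_nrm hS0) f3 (‖rq i + rq (i + 1)‖ / 2) f1 f2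
        (by linarith)
      apply hcov (-(rq i + rq (i + 1)))
      · rw [det3_neg_right, dS1]; linarith
      · rw [det3_swap (q s) (rq (i + 1)) (-(rq i + rq (i + 1))), det3_neg_right, dS3]
        linarith
      · rw [det3_neg_right, det3_nrm, dS1]
        have := mul_pos hSn (neg_pos.mpr hD1)
        linarith
    · -- case C
      have hne1 : q s ≠ rq i := by
        intro hh
        rw [← hh, inner_self_one hxu] at x1
        norm_num at x1
      have hne2 : q s ≠ -rq i := by
        intro hh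
        rw [hh, inner_neg_left, inner_self_one u1] at x1
        norm_num at x1
      have hsp := span_det hxu u1 hne1 hne2 (hD.symm.trans hD1)
      rw [x1, hrs2] at hsp
      have hy : rq (i + 1) = ⟪rq (i + 1), rq i⟫ • rq i := by
        calc rq (i + 1) = _ := hsp
          _ = _ := by norm_num
      have hgg : ⟪rq (i + 1), rq i⟫ * ⟪rq (i + 1), rq i⟫ = 1 := by
        have h1 : ⟪rq (i + 1), rq (i + 1)⟫ = ⟪rq (i + 1), rq i⟫ * ⟪rq (i + 1), rq i⟫ := by
          calc ⟪rq (i + 1), rq (i + 1)⟫ = ⟪rq (i + 1), ⟪rq (i + 1), rq i⟫ • rq i⟫ :=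
                congrArg (fun z => ⟪rq (i + 1), z⟫) hy
            _ = _ := by rw [real_inner_smul_right]
        rw [← h1, inner_self_one u2]
      have hneg : rq (i + 1) = -rq i := by
        have h4 : (⟪rq (i + 1), rq i⟫ - 1) * (⟪rq (i + 1), rq i⟫ + 1) = 0 := by linarith
        rcases mul_eq_zero.mp h4 with h5 | h5
        · exfalso
          have h6 : ⟪rq (i + 1), rq i⟫ = 1 := by linarith
          rw [h6, one_smul] at hy
          exact hrne i hi hy.symm
        · have h6 : ⟪rq (i + 1), rq i⟫ = -1 := by linarith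
          rw [h6, neg_smul, one_smul] at hy
          exact hy
      have hcu : ‖crs (q s) (rq i)‖ = 1 := norm_one_iff.mpr hcr
      apply core (-crs (q s) (rq i)) (by rw [norm_neg, hcu])
        (by rw [inner_neg_left, crs_inner, det3_self_left, neg_zero]) 0
        (by rw [inner_neg_left, crs_inner, det3_self_right, neg_zero])
        (by rw [inner_neg_left, crs_inner, ← hD, hD1, neg_zero]) (by linarith)
      rw [neg_neg]
      have g1 : 0 < det3 (q s) (rq i) (crs (q s) (rq i)) := by
        rw [det3_crs, hcr]; exact one_pos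
      apply hcov (crs (q s) (rq i)) g1 _ _ g1
      rw [hneg, det3_neg_right, det3_swap (q s) (rq i) (crs (q s) (rq i)), neg_neg]
      exact g1

end Pool.Agent.Helper30.N9
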