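import Pool.Agent.Helper24.N9.Deg2

/-! MP_9b91d1_co: basic facts on fans (helper89). -/

open scoped RealInnerProductSpace Topology

namespace Pool.Agent.Helper30.N9

namespace H89Fan

open PlaneGraph

variable {V : Type} [Fintype V] [DecidableEq V] {M : PlaneGraph V} {L : Type} {p q : V → E3}
  {h h' : M.Face → E3} {a : E3} {l : M.Face → L} {s t : V} {k : ℕ} {th : ℕ → ℝ} {r : ℕ → E3}
  {lam : ℕ → L}

theorem crs_one {a b : E3} (ha : ‖a‖ = 1) (hb : ‖b‖ = 1) (hab : ⟪a, b⟫ = 0) :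
    ⟪crs a b, crs a b⟫ = 1 := by
  rw [crs_inner_self, inner_self_one ha, inner_self_one hb, hab]
  norm_num

theorem rk (F : M.FanL p a l s t k th r lam) : r k = r 0 := by
  rw [F.rr k le_rfl, F.thk, Real.cos_two_pi, Real.sin_two_pi, one_smul, zero_smul, add_zero]

theorem inner_rr (ha : ‖a‖ = 1) (F : M.FanL p a l s t k th r lam) {i j : ℕ} (hi : i ≤ k)
    (hj : j ≤ k) : ⟪r i, r j⟫ = Real.cos (th j - th i) := by
  have h1 : ⟪crs a (r 0), r 0⟫ = 0 := by rw [crs_inner, det3_self_right]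
  rw [F.rr i hi, F.rr j hj]
  simp only [inner_add_left, inner_add_right, real_inner_smul_left, real_inner_smul_right]
  rw [inner_self_one F.r0, crs_one ha F.r0 F.ar0, h1, real_inner_comm (crs a (r 0)) (r 0), h1,
    Real.cos_sub]
  ring

theorem r_unit (ha : ‖a‖ = 1) (F : M.FanL p a l s t k th r lam) {i : ℕ} (hi : i ≤ k) :
    ‖r i‖ = 1 := by
  rw [norm_one_iff, inner_rr ha F hi hi, sub_self, Real.cos_zero]

theorem a_r (F : M.FanL p a l s t k th r lam) {i : ℕ} (hi : i ≤ k) : ⟪a, r i⟫ = 0 := by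
  rw [F.rr i hi, inner_add_right, real_inner_smul_right, real_inner_smul_right, F.ar0,
    real_inner_comm, crs_inner, det3_self_left]
  ring

theorem k2 (F : M.FanL p a l s t k th r lam) : 2 ≤ k := by
  have hpi := Real.pi_pos
  have h0 := F.th0
  have hk := F.thk
  by_contra hcon
  have h1 : k = 0 ∨ k = 1 := by omega
  rcases h1 with rfl | rfl
  · rw [h0] at hk; linarith
  · have := F.thp 0 (by norm_num)
    rw [zero_add, hk, h0] at this
    linarith

theorem lam_ne (F : M.FanL p a l s t k th r lam) {i : ℕ} (hi : i < k) :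
    lam (i + 1) ≠ lam i := by
  intro hh
  have h2 := k2 F
  by_cases h1 : i + 1 < k
  · have := F.lami (i + 1) h1 i hi hh
    omega
  · have h3 : i + 1 = k := by omega
    rw [h3, F.lamk] at hh
    have := F.lami 0 (by omega) i hi hh
    omega

theorem bd_E0 {b : L} {d : M.G.Dart} (hd : M.Bd (fun w => l w = b) d) : M.E0 l d := by
  obtain ⟨h1, h2⟩ := hd
  intro hh
  exact h2 (hh.symm.trans h1)

theorem bd_ray (F : M.FanL p a l s t k th r lam) {i : ℕ} (hi : i < k) {d : M.G.Dart}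
    (hd : M.Bd (fun w => l w = lam i) d) :
    (OnR a (r i) (p d.fst) ∧ OnR a (r i) (p d.snd) ∧ ⟪a, p d.snd⟫ < ⟪a, p d.fst⟫) ∨
    (OnR a (r (i + 1)) (p d.fst) ∧ OnR a (r (i + 1)) (p d.snd) ∧
      ⟪a, p d.fst⟫ < ⟪a, p d.snd⟫) := by
  obtain ⟨j, hj, h1, h2, h3⟩ := F.ray d (bd_E0 hd)
  have hl : l (M.fc d) = lam i := hd.1
  rcases h3 with ⟨h3, h4, h5⟩ | ⟨h3, h4, h5⟩
  · left
    rw [hl] at h4
    by_cases h6 : j + 1 < k
    · have := F.lami i hi (j + 1) h6 h4
      rw [this]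
      exact ⟨h1, h2, h3⟩
    · have h7 : j + 1 = k := by omega
      rw [h7, F.lamk] at h4
      have := F.lami i hi 0 (by omega) h4
      rw [h7, rk F] at h1 h2
      rw [this]
      exact ⟨h1, h2, h3⟩
  · right
    rw [hl] at h4
    have := F.lami i hi j hj h4
    rw [this]
    exact ⟨h1, h2, h3⟩

/-- the first boundary dart on the right meridian of a lune -/
theorem top_right (F : M.FanL p a l s t k th r lam) {i : ℕ} (hi : i < k) :
    ∃ d : M.G.Dart, d.snd = s ∧ OnR a (r (i + 1)) (p d.fst) ∧ M.Bd (fun w => l w = lam i) d := by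
  obtain ⟨d, h1, h2, h3, h4⟩ := F.top i hi
  refine ⟨d.symm, h1, h2, h4, ?_⟩
  intro hh
  have h5 : l (M.fc d) = lam i := by
    have : M.fc d.symm.symm = M.fc d := by rw [SimpleGraph.Dart.symm_symm]
    rw [← this]
    exact hh
  exact lam_ne F hi (h3.symm.trans h5)

/-- the first boundary dart on the left meridian of a lune -/
theorem top_left (F : M.FanL p a l s t k th r lam) {i : ℕ} (hi : i < k) :
    ∃ d : M.G.Dart, d.fst = s ∧ OnR a (r i) (p d.snd) ∧ M.Bd (fun w => l w = lam i) d := by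
  have hk := k2 F
  by_cases h0 : i = 0
  · obtain ⟨d, h1, h2, h3, h4⟩ := F.top (k - 1) (by omega)
    have e : k - 1 + 1 = k := by omega
    rw [e, rk F] at h2
    rw [e, F.lamk] at h3
    rw [h0]
    refine ⟨d, h1, h2, h3, ?_⟩
    intro hh
    have h5 : lam (k - 1) = lam 0 := h4.symm.trans hh
    have := F.lami (k - 1) (by omega) 0 (by omega) h5
    omega
  · obtain ⟨d, h1, h2, h3, h4⟩ := F.top (i - 1) (by omega)
    have e : i - 1 + 1 = i := by omega
    rw [e] at h2 h3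
    refine ⟨d, h1, h2, h3, ?_⟩
    intro hh
    have h5 : lam (i - 1) = lam i := h4.symm.trans hh
    have := F.lami (i - 1) (by omega) i hi h5
    omega

theorem sum_norm {u v : E3} (hu : ‖u‖ = 1) (hv : ‖v‖ = 1) :
    ‖u + v‖ ^ 2 = 2 + 2 * ⟪u, v⟫ := by
  rw [← real_inner_self_eq_norm_sq]
  simp only [inner_add_left, inner_add_right]
  rw [inner_self_one hu, inner_self_one hv, real_inner_comm u v]
  ring

theorem half_inner {u v : E3} (hu : ‖u‖ = 1) (hv : ‖v‖ = 1) :
    ⟪nrm (u + v), u⟫ = ‖u + v‖ / 2 ∧ ⟪nrm (u + v), v⟫ = ‖u + v‖ / 2 := by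
  have h1 := sum_norm hu hv
  unfold nrm
  rw [real_inner_smul_left, real_inner_smul_left, inner_add_left, inner_add_left,
    inner_self_one hu, inner_self_one hv, real_inner_comm u v]
  rcases eq_or_ne ‖u + v‖ 0 with h0 | h0
  · rw [h0]; simp
  · constructor
    · field_simp
      linarith
    · field_simp
      linarith

theorem nu_pos (ha : ‖a‖ = 1) (F : M.FanL p a l s t k th r lam) {i : ℕ} (hi : i < k)
    (hgap : th (i + 1) < th i + Real.pi) : 0 < ‖r i + r (i + 1)‖ := by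
  have hpi := Real.pi_pos
  have h1 := sum_norm (r_unit ha F hi.le) (r_unit ha F hi)
  rw [inner_rr ha F hi.le hi] at h1
  have h2 : -1 < Real.cos (th (i + 1) - th i) := by
    rw [← Real.cos_pi]
    apply Real.cos_lt_cos_of_nonneg_of_le_pi
    · have := F.thl i hi
      linarith
    · exact le_rfl
    · linarith
  have h3 : 0 < ‖r i + r (i + 1)‖ ^ 2 := by rw [h1]; linarith
  rcases (norm_nonneg (r i + r (i + 1))).eq_or_lt with h0 | h0
  · rw [← h0] at h3; norm_num at h3
  · exact h0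

theorem c_pos {x r : E3} (hx : ‖x‖ = 1) (h1 : x ≠ a) (h2 : x ≠ -a) {c : ℝ}
    (hc : 0 ≤ c) (he : x = c • r + ⟪a, x⟫ • a) : 0 < c := by
  rcases hc.eq_or_lt with h0 | h0
  · exfalso
    rw [← h0, zero_smul, zero_add] at he
    have h3 : ⟪x, x⟫ = ⟪a, x⟫ * ⟪a, x⟫ := by
      calc ⟪x, x⟫ = ⟪⟪a, x⟫ • a, x⟫ := congrArg (fun z => ⟪z, x⟫) he
        _ = _ := by rw [real_inner_smul_left]
    rw [inner_self_one hx] at h3
    have h4 : (⟪a, x⟫ - 1) * (⟪a, x⟫ + 1) = 0 := by linarith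
    rcases mul_eq_zero.mp h4 with h5 | h5
    · apply h1
      rw [he]
      have : ⟪a, x⟫ = 1 := by linarith
      rw [this, one_smul]
    · apply h2
      rw [he]
      have : ⟪a, x⟫ = -1 := by linarith
      rw [this, neg_smul, one_smul]
  · exact h0

/-- a boundary dart of lune i starting at a vertex with positive coordinate -/
theorem strict_dart (hp : M.InC p) (FA : M.Fan p a l s t) (F : M.FanL p a l s t k th r lam)
    {i : ℕ} (hi : i < k) : ∃ (d : M.G.Dart) (c : ℝ), M.Bd (fun w => l w = lam i) d ∧ 0 < c ∧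
      p d.fst = c • r (i + 1) + ⟪a, p d.fst⟫ • a := by
  obtain ⟨d, h1, ⟨c, hc, he⟩, h2⟩ := top_right F hi
  refine ⟨d, c, h2, ?_, he⟩
  have hs : p d.snd = a := by rw [h1, FA.ps]
  apply c_pos (hp.unit _) _ _ hc he
  · rw [← hs]; exact hp.q_ne d
  · rw [← hs]; exact hp.ne_neg d

end H89Fan

end Pool.Agent.Helper30.N9
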