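import Pool.Agent.Helper30.N9.Sheet3
import Pool.Agent.Helper26.N9.C5
import Pool.Agent.Helper93.N9.FullCx

/-! MP_9b91d1_co, row HUBCX, part A: geometry of the hub (helper89). -/

open scoped RealInnerProductSpace Topology

namespace H89Hub

open Pool.Agent.Helper30.N9 Pool.Agent.Helper30.N9.PlaneGraph N9Cell

variable {V : Type} [Fintype V] [DecidableEq V] {M : PlaneGraph V} {p : V → E3}
    {h : M.Face → E3} {T : Set M.Face} {ν : E3}

theorem vertG (G : Good M p h) (u : V) (d : M.G.Dart) (hu : p u ∈ arc (p d.fst) (p d.snd)) :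
    u = d.fst ∨ u = d.snd := by
  obtain ⟨X, hp, hf, hs, hr, hl, hh⟩ := st_FULLCX V M p h G
  have h1 := X.vert u d
  rw [hp, hf, hs] at h1
  exact h1 hu

theorem embedG (G : Good M p h) {d e : M.G.Dart} (h1 : e ≠ d) (h2 : e ≠ d.symm) {x : E3}
    (hx : x ∈ arc (p d.fst) (p d.snd)) (hx' : x ∈ arc (p e.fst) (p e.snd)) :
    x = p d.fst ∨ x = p d.snd := by
  obtain ⟨X, hp, hf, hs, hr, hl, hh⟩ := st_FULLCX V M p h G
  have h3 := X.embed d e
  rw [hp, hf, hs, hr] at h3
  exact h3 h1 h2 x hx hx'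

theorem hl_both (H : HubHyp M p T ν) {d e : M.G.Dart} (hd : d ∈ M.bd T)
    (he : M.fc e ∈ T ∨ M.fc e.symm ∈ T) :
    0 ≤ det3 (p d.fst) (p d.snd) (p e.fst) ∧ 0 ≤ det3 (p d.fst) (p d.snd) (p e.snd) := by
  have key : ∀ e : M.G.Dart, M.fc e ∈ T →
      0 ≤ det3 (p d.fst) (p d.snd) (p e.fst) ∧ 0 ≤ det3 (p d.fst) (p d.snd) (p e.snd) := by
    intro e he
    have h1 := H.left d hd (M.nxt e) (by rw [fc_nxt]; exact he)
    rw [M.nxt_fst] at h1
    exact ⟨H.left d hd e he, h1⟩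
  rcases he with he | he
  · exact key e he
  · have h1 := key e.symm he
    exact ⟨h1.2, h1.1⟩

theorem out_unique (hq : M.InC p) (H : HubHyp M p T ν) {d e : M.G.Dart} (hd : d ∈ M.bd T)
    (he : e ∈ M.bd T) (hde : d.fst = e.fst) : d = e := by
  by_contra hne
  have hdT := (mem_bd.mp hd).1
  have heT := (mem_bd.mp he).1
  have h1 := (hl_both H hd (Or.inl heT)).2
  have h2 := (hl_both H he (Or.inl hdT)).2
  rw [← hde, det3_swap] at h2
  have h3 : det3 (p d.fst) (p d.snd) (p e.snd) = 0 := le_antisymm (by linarith) h1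
  have hsp := span_det (hq.unit _) (hq.unit _) (hq.q_ne d) (hq.ne_neg d) h3
  obtain ⟨α, hα⟩ : ∃ α, α = (⟪p e.snd, p d.fst⟫ - ⟪p d.fst, p d.snd⟫ * ⟪p e.snd, p d.snd⟫)
    / (1 - ⟪p d.fst, p d.snd⟫ ^ 2) := ⟨_, rfl⟩
  obtain ⟨β, hβ⟩ : ∃ β, β = (⟪p e.snd, p d.snd⟫ - ⟪p d.fst, p d.snd⟫ * ⟪p e.snd, p d.fst⟫)
    / (1 - ⟪p d.fst, p d.snd⟫ ^ 2) := ⟨_, rfl⟩
  rw [← hα, ← hβ] at hsp
  have h5 := H.strict d hd
  have h6 := H.strict e he
  rw [← hde, hsp] at h6
  have h7 : det3 (p d.fst) (α • p d.fst + β • p d.snd) ν = β * det3 (p d.fst) (p d.snd) ν := by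
    simp only [det3, PiLp.add_apply, PiLp.smul_apply, smul_eq_mul]
    ring
  rw [h7] at h6
  have hβ0 : 0 < β := by
    by_contra hcon
    push Not at hcon
    nlinarith
  have hedge : d.edge ≠ e.edge := by
    intro hh
    rcases SimpleGraph.dart_edge_eq_iff d e |>.mp hh with hh | hh
    · exact hne hh
    · have : d.fst = e.snd := by rw [hh]; rfl
      exact e.adj.ne (hde.symm.trans this)
  have fin : d.snd = e.snd → False := by
    intro hh
    apply hne
    apply SimpleGraph.Dart.ext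
    exact Prod.ext hde hh
  rcases le_or_gt 0 α with ha | ha
  · have m1 : p e.snd ∈ arc (p d.fst) (p d.snd) := ⟨hq.unit _, α, β, ha, hβ0.le, hsp⟩
    obtain ⟨v, hv1, hv2, hv3⟩ := hq.embed d e hedge _ m1 (right_mem_arc (hq.unit _))
    have hv := hq.inj hv3
    rw [← hv] at hv1
    rcases mem_edge hv1 with h8 | h8
    · exact e.adj.ne (hde.symm.trans h8.symm)
    · exact fin h8.symm
  · have hu : p d.snd = (-α / β) • p e.fst + (1 / β) • p e.snd := by
      rw [← hde, hsp, smul_add, smul_smul, smul_smul, ← add_assoc, ← add_smul]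
      have e1 : -α / β + 1 / β * α = 0 := by field_simp; ring
      have e2 : 1 / β * β = 1 := by field_simp
      rw [e1, e2, zero_smul, zero_add, one_smul]
    have m1 : p d.snd ∈ arc (p e.fst) (p e.snd) :=
      ⟨hq.unit _, -α / β, 1 / β, div_nonneg (by linarith) hβ0.le, by positivity, hu⟩
    obtain ⟨v, hv1, hv2, hv3⟩ := hq.embed d e hedge _ (right_mem_arc (hq.unit _)) m1
    have hv := hq.inj hv3
    rw [← hv] at hv2
    rcases mem_edge hv2 with h8 | h8
    · exact d.adj.ne (hde.trans h8.symm)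
    · exact fin h8

theorem exists_sc (hq : M.InC p) (H : HubHyp M p T ν) :
    ∃ sc : Equiv.Perm {d : M.G.Dart // d ∈ M.bd T}, ∀ e, (sc e).1.fst = e.1.snd := by
  have h1 : ∀ e : {d : M.G.Dart // d ∈ M.bd T}, ∃ e' : {d : M.G.Dart // d ∈ M.bd T},
      e'.1.fst = e.1.snd := by
    intro e
    obtain ⟨e', he', h2⟩ := next_exists e.2
    exact ⟨⟨e', he'⟩, h2⟩
  choose f hf using h1
  have hinj : Function.Injective f := by
    intro a b hab
    apply Subtype.ext
    apply in_unique (fun d hd e he => out_unique hq H hd he) a.2 b.2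
    rw [← hf, ← hf, hab]
  exact ⟨Equiv.ofBijective f (Finite.injective_iff_bijective.mp hinj), fun e => hf e⟩

theorem unit_smul {a : E3} (ha : ‖a‖ = 1) {t : ℝ} (ht : 0 ≤ t) {x : E3} (hx : ‖x‖ = 1)
    (h : x = t • a) : x = a := by
  have h1 : ‖x‖ = t := by rw [h, norm_smul, ha, mul_one, Real.norm_of_nonneg ht]
  rw [hx] at h1
  rw [h, ← h1, one_smul]

theorem hub_det (a b : E3) (s t : ℝ) : det3 a b (s • (-ν) + t • a) = -(s * det3 a b ν) := by
  simp only [det3, PiLp.add_apply, PiLp.smul_apply, smul_eq_mul, PiLp.neg_apply]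
  ring

/-- a point of a hub arc on the left of the boundary dart is the boundary vertex -/
theorem hubA (hq : M.InC p) (H : HubHyp M p T ν) {b : M.G.Dart} (hb : b ∈ M.bd T) {x : E3}
    (hx : x ∈ arc (-ν) (p b.fst)) (hd : 0 ≤ det3 (p b.fst) (p b.snd) x) : x = p b.fst := by
  obtain ⟨hx1, s, t, hs, ht, he⟩ := hx
  rw [he, hub_det] at hd
  have h1 := H.strict b hb
  have hs0 : s = 0 := by
    apply le_antisymm _ hs
    by_contra hcon
    push Not at hcon
    nlinarith [mul_pos hcon h1]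
  rw [hs0, zero_smul, zero_add] at he
  exact unit_smul (hq.unit _) ht hx1 he

theorem arc_det {a b u v x : E3} (hu : 0 ≤ det3 a b u) (hv : 0 ≤ det3 a b v)
    (hx : x ∈ arc u v) : 0 ≤ det3 a b x := by
  obtain ⟨_, s, t, hs, ht, he⟩ := hx
  rw [he, det3_add_right, det3_smul_right, det3_smul_right]
  positivity

theorem hubA' (hq : M.InC p) (H : HubHyp M p T ν) {b e : M.G.Dart} (hb : b ∈ M.bd T)
    (he : M.fc e ∈ T ∨ M.fc e.symm ∈ T) {x : E3}
    (hx : x ∈ arc (-ν) (p b.fst)) (hx' : x ∈ arc (p e.fst) (p e.snd)) : x = p b.fst := by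
  have h1 := hl_both H hb he
  exact hubA hq H hb hx (arc_det h1.1 h1.2 hx')

theorem hubB (hq : M.InC p) (H : HubHyp M p T ν) {b b' : M.G.Dart} (hb : b ∈ M.bd T)
    (hb' : b' ∈ M.bd T) (hne : b.fst ≠ b'.fst) {x : E3}
    (hx : x ∈ arc (-ν) (p b.fst)) (hx' : x ∈ arc (-ν) (p b'.fst)) : x = -ν := by
  obtain ⟨hx1, s, t, hs, ht, he⟩ := hx
  obtain ⟨_, s', t', hs', ht', he'⟩ := hx'
  have key : ∀ {b b' : M.G.Dart}, b ∈ M.bd T → b' ∈ M.bd T → ∀ {s t s' t' : ℝ}, 0 ≤ t' →
      s • (-ν) + t • p b.fst = s' • (-ν) + t' • p b'.fst → s ≤ s' := by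
    intro b b' hb hb' s t s' t' ht' hh
    have h1 := H.strict b hb
    have h2 := (hl_both H hb (Or.inl (mem_bd.mp hb').1)).1
    have h3 : det3 (p b.fst) (p b.snd) (s • (-ν) + t • p b.fst)
        = det3 (p b.fst) (p b.snd) (s' • (-ν) + t' • p b'.fst) := by rw [hh]
    rw [hub_det, det3_add_right, det3_smul_right, det3_smul_right, det3_neg_right] at h3
    have h4 : 0 ≤ t' * det3 (p b.fst) (p b.snd) (p b'.fst) := mul_nonneg ht' h2
    by_contra hcon
    push Not at hcon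
    nlinarith [mul_pos (sub_pos.mpr hcon) h1]
  have h1 := key hb hb' ht' (he.symm.trans he')
  have h2 := key hb' hb ht (he'.symm.trans he)
  have hss : s = s' := le_antisymm h1 h2
  have h3 : t • p b.fst = t' • p b'.fst := by
    have := he.symm.trans he'
    rw [hss] at this
    exact add_left_cancel this
  have h4 : t = t' := by
    have := congrArg norm h3
    rw [norm_smul, norm_smul, hq.unit, hq.unit, mul_one, mul_one, Real.norm_of_nonneg ht,
      Real.norm_of_nonneg ht'] at this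
    exact this
  rcases ht.eq_or_lt with h5 | h5
  · rw [← h5, zero_smul, add_zero] at he
    exact unit_smul (by rw [norm_neg]; exact H.nu) hs hx1 he
  · exfalso
    rw [← h4] at h3
    have h6 := smul_right_injective E3 h5.ne' h3
    exact hne (hq.inj h6)

theorem det_neg_nu (H : HubHyp M p T ν) {b : M.G.Dart} (hb : b ∈ M.bd T) :
    det3 (p b.fst) (p b.snd) (-ν) < 0 := by
  rw [det3_neg_right]
  have := H.strict b hb
  linarith

theorem ne_nu (H : HubHyp M p T ν) {b : M.G.Dart} (hb : b ∈ M.bd T) : p b.fst ≠ ν := by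
  intro hh
  have h1 := H.strict b hb
  rw [← hh, det3_self_left] at h1
  exact lt_irrefl _ h1

theorem hub_not_arc (H : HubHyp M p T ν) {e : M.G.Dart} (he : M.fc e ∈ T ∨ M.fc e.symm ∈ T) :
    -ν ∉ arc (p e.fst) (p e.snd) := by
  intro hx
  obtain ⟨b, hb⟩ := H.ne
  have h1 := hl_both H hb he
  have h2 := arc_det h1.1 h1.2 hx
  have h3 := det_neg_nu H hb
  linarith

theorem ne_neg_nu (H : HubHyp M p T ν) {e : M.G.Dart} (he : M.fc e ∈ T) : p e.fst ≠ -ν := by
  intro hh
  obtain ⟨b, hb⟩ := H.ne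
  have h1 := H.left b hb e he
  rw [hh] at h1
  have h3 := det_neg_nu H hb
  linarith

/-- the flip number at nu is 1 -/
theorem area_T (G : Good M p h) (H : HubHyp M p T ν) :
    ∑ w ∈ TF T, SA (M.fdarts w) (M.ga p) (M.gb p) (h w)
      = 4 * Real.pi + SA (M.bd T) (M.ga p) (M.gb p) (-ν) := by
  obtain ⟨d, hd⟩ := H.ne
  have hq := G.inC
  have hpi := Real.pi_pos
  have ua := hq.unit d.fst
  have ub := hq.unit d.snd
  obtain ⟨x, hx⟩ : ∃ x, x = nrm (p d.fst + (1 : ℝ) • p d.snd) := ⟨_, rfl⟩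
  obtain ⟨p0, p1, p2, p3⟩ := pt_props ua ub (hq.q_ne d) (hq.ne_neg d) one_pos
  rw [← hx] at p1 p2 p3
  have hx1 : ‖x‖ = 1 := by rw [hx]; exact norm_nrm p0
  have hx0 : x ≠ 0 := ne_zero_of_unit hx1
  have hxx : nrm x = x := nrm_unit hx1
  obtain ⟨δ, hδ, hball⟩ := edge_local G.per G.c3 hq G.cen p1 p2 p3
  have hoff := eventually_off_others hq (d := d) hx0 (by rw [hxx]; exact p1)
    (by rw [hxx]; exact p2) (by rw [hxx]; exact p3)
  have hdx : ∀ e ∈ M.bd T, 0 ≤ det3 (p e.fst) (p e.snd) x := by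
    intro e he
    have h1 := hl_both H he (Or.inl (mem_bd.mp hd).1)
    exact arc_det h1.1 h1.2 p1
  have hcurve : Filter.Tendsto (fun τ : ℝ => x + τ • ν) (𝓝[>] 0) (𝓝 x) := by
    have h1 : Continuous (fun τ : ℝ => x + τ • ν) := by fun_prop
    have h2 := h1.tendsto 0
    simp only [zero_smul, add_zero] at h2
    exact h2.mono_left nhdsWithin_le_nhds
  have hev := (hcurve.eventually hoff).and ((hcurve.eventually (Metric.ball_mem_nhds x hδ)).and
    (self_mem_nhdsWithin : ∀ᶠ τ : ℝ in 𝓝[>] 0, 0 < τ))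
  obtain ⟨τ, h1, h2, h3⟩ := hev.exists
  obtain ⟨y, hy⟩ : ∃ y, y = x + τ • ν := ⟨_, rfl⟩
  rw [← hy] at h1 h2
  have hdy : ∀ e ∈ M.bd T, 0 < det3 (p e.fst) (p e.snd) y := by
    intro e he
    rw [hy, det3_add_right, det3_smul_right]
    have := mul_pos h3 (H.strict e he)
    have := hdx e he
    linarith
  have hy0 : y ≠ 0 := (hball y h2).1
  have hoy : M.OffAll p (nrm y) := h1 (hdy d hd).ne'
  have hFW : M.FW p h (M.fc d) (nrm y) = 1 := (hball y h2).2.2.1 (hdy d hd)
  have e1 := sum_FW_mem G T (norm_nrm hy0) hoy ⟨M.fc d, (mem_bd.mp hd).1, hFW⟩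
  rw [sum_FW_T hq h T (norm_nrm hy0) hoy, div_eq_one_iff_eq (by positivity)] at e1
  have e2 : SA (M.bd T) (M.ga p) (M.gb p) (-nrm y) = SA (M.bd T) (M.ga p) (M.gb p) (-nrm ν) := by
    have hz : ∀ z ∈ segment ℝ y ν, ∀ e ∈ M.bd T, 0 < det3 (p e.fst) (p e.snd) z := by
      rintro z ⟨α, β, hα, hβ, hαβ, rfl⟩ e he
      rw [det3_add_right, det3_smul_right, det3_smul_right]
      have g1 := hdy e he
      have g2 := H.strict e he
      rcases hα.eq_or_lt with h0 | h0
      · rw [← h0]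
        have : β = 1 := by linarith
        rw [this]; linarith
      · have := mul_pos h0 g1
        have := mul_nonneg hβ g2.le
        linarith
    apply (bd_chain hq T).seg
    · intro z hz1 hz0
      have := hz z hz1 d hd
      rw [hz0] at this
      have e0 : det3 (p d.fst) (p d.snd) (0 : E3) = 0 := by
        simp [det3]
      rw [e0] at this
      exact lt_irrefl _ this
    · intro z hz1 e he
      exact not_mem_arc_of_det (hz z hz1 e he).ne'
  rw [nrm_unit H.nu] at e2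
  rw [← e2]
  linarith

end H89Hub
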