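import Pool.Agent.Helper89.N9.HubA

/-! MP_9b91d1_co, row HUBCX, part B: winding numbers of a triangle (helper89). -/

open scoped RealInnerProductSpace Topology

namespace H89Hub

open Pool.Agent.Helper30.N9

theorem tri_chain {A B C g : E3} (hA : ‖A‖ = 1) (hB : ‖B‖ = 1) (hC : ‖C‖ = 1)
    (gA : 0 < ⟪g, A⟫) (gB : 0 < ⟪g, B⟫) (gC : 0 < ⟪g, C⟫) (hd : 0 < det3 A B C) :
    Chain (Finset.univ : Finset (Fin 3)) ![A, B, C] ![B, C, A] where
  ua := by
    intro i _
    fin_cases i
    · exact hA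
    · exact hB
    · exact hC
  ub := by
    intro i _
    fin_cases i
    · exact hB
    · exact hC
    · exact hA
  ne := by
    intro i _
    fin_cases i
    · intro hh
      have hh' : A = B := hh
      rw [hh'] at hd
      simp only [det3] at hd
      linarith
    · intro hh
      have hh' : B = C := hh
      rw [hh'] at hd
      simp only [det3] at hd
      linarith
    · intro hh
      have hh' : C = A := hh
      rw [hh'] at hd
      simp only [det3] at hd
      linarith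
  nn := by
    have key : ∀ x y : E3, 0 < ⟪g, x⟫ → 0 < ⟪g, y⟫ → x ≠ -y := by
      intro x y hx hy hh
      rw [hh, inner_neg_right] at hx
      linarith
    intro i _
    fin_cases i
    · exact key A B gA gB
    · exact key B C gB gC
    · exact key C A gC gA
  closed := by
    intro f
    rw [Fin.sum_univ_three, Fin.sum_univ_three]
    simp only [Matrix.cons_val_zero, Matrix.cons_val_one, Matrix.cons_val]
    abel

theorem tri_SA (A B C x : E3) : SA (Finset.univ : Finset (Fin 3)) ![A, B, C] ![B, C, A] x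
    = Om x A B + Om x B C + Om x C A := by
  unfold SA
  rw [Fin.sum_univ_three]
  simp only [Matrix.cons_val_zero, Matrix.cons_val_one, Matrix.cons_val]

theorem tri_area {A B C g : E3} (hA : ‖A‖ = 1) (hB : ‖B‖ = 1) (hC : ‖C‖ = 1) (hg : ‖g‖ = 1)
    (gA : 0 < ⟪g, A⟫) (gB : 0 < ⟪g, B⟫) (gC : 0 < ⟪g, C⟫) :
    Om g A B + Om g B C + Om g C A = Om A B C := by
  have gg : 0 < ⟪g, g⟫ := by rw [inner_self_one hg]; exact one_pos
  have h1 := E4_hemi hg hA hB hC hg gg gA gB gC
  unfold E4 at h1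
  have h2 := Om_swap (slit_hemi hg hC hA gg gC gA)
  rw [h2] at h1
  linarith

theorem tri_01 {A B C g z : E3} (hA : ‖A‖ = 1) (hB : ‖B‖ = 1) (hC : ‖C‖ = 1) (hg : ‖g‖ = 1)
    (gA : 0 < ⟪g, A⟫) (gB : 0 < ⟪g, B⟫) (gC : 0 < ⟪g, C⟫) (hd : 0 < det3 A B C)
    (hz : ‖z‖ = 1) (zAB : z ∉ arc A B) (zBC : z ∉ arc B C) (zCA : z ∉ arc C A) :
    W (Finset.univ : Finset (Fin 3)) ![A, B, C] ![B, C, A] g z = 0 ∨
    W (Finset.univ : Finset (Fin 3)) ![A, B, C] ![B, C, A] g z = 1 := by
  have hpi := Real.pi_pos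
  have hc := tri_chain hA hB hC gA gB gC hd
  have gg : 0 < ⟪g, g⟫ := by rw [inner_self_one hg]; exact one_pos
  have hh : Centre (Finset.univ : Finset (Fin 3)) ![A, B, C] ![B, C, A] g := by
    refine ⟨hg, ?_⟩
    intro i _
    fin_cases i
    · exact ⟨gA, gB⟩
    · exact ⟨gB, gC⟩
    · exact ⟨gC, gA⟩
  have ho : Off (Finset.univ : Finset (Fin 3)) ![A, B, C] ![B, C, A] z := by
    intro i _
    fin_cases i
    · exact zAB
    · exact zBC
    · exact zCA
  obtain ⟨k, hk⟩ := hc.W_int hh hz ho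
  have hS := tri_area hA hB hC hg gA gB gC
  have sABC : zc A B C ∈ Complex.slitPlane := slit_hemi hA hB hC gA gB gC
  have hpos := (Om_pos_iff sABC).mpr hd
  have hlt := (Om_lt sABC).2
  have n1 : A ≠ B := hc.ne 0 (Finset.mem_univ _)
  have n2 : B ≠ C := hc.ne 1 (Finset.mem_univ _)
  have n3 : C ≠ A := hc.ne 2 (Finset.mem_univ _)
  have m1 : A ≠ -B := hc.nn 0 (Finset.mem_univ _)
  have m2 : B ≠ -C := hc.nn 1 (Finset.mem_univ _)
  have m3 : C ≠ -A := hc.nn 2 (Finset.mem_univ _)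
  have s1 := slit_of_not_mem hz hA hB n1 m1 zAB
  have s2 := slit_of_not_mem hz hB hC n2 m2 zBC
  have s3 := slit_of_not_mem hz hC hA n3 m3 zCA
  have b1 := Om_lt s1
  have b2 := Om_lt s2
  have b3 := Om_lt s3
  have hW : W (Finset.univ : Finset (Fin 3)) ![A, B, C] ![B, C, A] g z * (4 * Real.pi)
      = Om A B C - (Om (-z) A B + Om (-z) B C + Om (-z) C A) := by
    unfold W
    rw [tri_SA, tri_SA, hS, div_mul_cancel₀ _ (by positivity)]
  rw [hk] at hW ⊢
  have k1 : (k : ℝ) < 2 := by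
    by_contra hcon
    push Not at hcon
    nlinarith
  have k2 : (-2 : ℝ) < k := by
    by_contra hcon
    push Not at hcon
    nlinarith
  have k1' : k < 2 := by exact_mod_cast k1
  have k2' : -2 < k := by exact_mod_cast k2
  have k3 : k = -1 ∨ k = 0 ∨ k = 1 := by omega
  rcases k3 with rfl | rfl | rfl
  · exfalso
    push_cast at hW
    have p1 : 0 < Om (-z) A B := by linarith [b2.2, b3.2]
    have p2 : 0 < Om (-z) B C := by linarith [b1.2, b3.2]
    have p3 : 0 < Om (-z) C A := by linarith [b1.2, b2.2]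
    rw [Om_pos_iff s1, det3_neg_left] at p1
    rw [Om_pos_iff s2, det3_neg_left] at p2
    rw [Om_pos_iff s3, det3_neg_left] at p3
    have hcr : det3 A B C * ⟪g, z⟫ = det3 z B C * ⟪g, A⟫ + det3 z C A * ⟪g, B⟫
        + det3 z A B * ⟪g, C⟫ := by
      simp only [inner_def, det3]
      ring
    have hz0 : ⟪g, z⟫ ≤ 0 := by
      by_contra hcon
      push Not at hcon
      have q0 := mul_pos hd hcon
      have q1 : 0 < -det3 z B C * ⟪g, A⟫ := mul_pos p2 gA
      have q2 : 0 < -det3 z C A * ⟪g, B⟫ := mul_pos p3 gB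
      have q3 : 0 < -det3 z A B * ⟪g, C⟫ := mul_pos p1 gC
      nlinarith
    have := hc.W_zero hh hz hz0
    rw [hk] at this
    norm_num at this
  · left; norm_num
  · right; norm_num

/-- a centre of a triangle -/
theorem exists_centre {A B C : E3} (hd : 0 < det3 A B C) :
    ∃ g : E3, ‖g‖ = 1 ∧ 0 < ⟪g, A⟫ ∧ 0 < ⟪g, B⟫ ∧ 0 < ⟪g, C⟫ := by
  obtain ⟨g, h1, h2, h3⟩ := exists_dual hd.ne'
  have hg0 : g ≠ 0 := by
    rintro rfl
    rw [inner_zero_left] at h1
    norm_num at h1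
  have hn : 0 < ‖g‖⁻¹ := inv_pos.mpr (norm_pos_iff.mpr hg0)
  refine ⟨nrm g, norm_nrm hg0, ?_, ?_, ?_⟩ <;>
  · unfold nrm
    rw [real_inner_smul_left]
    first
      | rw [h1, mul_one]; exact hn
      | rw [h2, mul_one]; exact hn
      | rw [h3, mul_one]; exact hn

end H89Hub
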