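import Pool.Agent.Helper89.N9.FanB

/-! MP_9b91d1_co, row OP1 (helper89). -/

open scoped RealInnerProductSpace Topology

namespace Pool.Agent.Helper30.N9

open H89Fan PlaneGraph

theorem st_OP1 (hCH : ST_CH) (hLH : ST_LH) : ST_OP1 := by
  intro V _ _ M L p q h h' a l s t k th r lam om Sp Sq LM LE FA F SW i hi hgap hd hne hcov
  have hpi := Real.pi_pos
  have hqs := Sq.inc.unit s
  have hx : q s + q t ≠ 0 := fun hh => hne (eq_neg_of_add_eq_zero_right hh)
  have hm : ‖nrm (q s + q t)‖ = 1 := norm_nrm hx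
  have hxn : 0 < ‖q s + q t‖ := norm_pos_iff.mpr hx
  have hr0 := r_unit FA.ua F hi.le
  have hr1 := r_unit FA.ua F (i := i + 1) hi
  have har0 := a_r F hi.le
  have har1 := a_r F (i := i + 1) hi
  have hκ := nu_pos FA.ua F hi hgap
  obtain ⟨n1, n2⟩ := half_inner hr0 hr1
  have hν_a : ⟪nrm (r i + r (i + 1)), a⟫ = 0 := by
    unfold nrm
    rw [real_inner_smul_left, inner_add_left, real_inner_comm, har0, real_inner_comm, har1]
    ring
  -- points of the meridians are in the half space of m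
  have key : ∀ v, M.OnE l v → 0 ≤ ⟪nrm (q s + q t), q v⟫ := by
    intro v hv
    have hch : ang (q s) (q v) ≤ ang a (p v) ∧ ang (q v) (q t) ≤ ang (p v) (-a) := by
      first
        | exact hCH V M L p q h a l s t Sp Sq.inc.unit LE FA v hv
        | exact hCH V M L p q a l s t Sp.inc Sq.inc.unit LE FA v hv
    obtain ⟨c1, c2⟩ := hch
    have hqv := Sq.inc.unit v
    have hqt := Sq.inc.unit t
    have hpv := Sp.inc.unit v
    unfold ang at c1 c2
    rw [inner_neg_right, Real.arccos_neg, real_inner_comm a (p v)] at c2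
    obtain ⟨α, hα⟩ : ∃ α, α = Real.arccos ⟪a, p v⟫ := ⟨_, rfl⟩
    rw [← hα] at c1 c2
    have a0 : 0 ≤ α := by rw [hα]; exact Real.arccos_nonneg _
    have a1 : α ≤ Real.pi := by rw [hα]; exact Real.arccos_le_pi _
    have bd : ∀ x y : E3, ‖x‖ = 1 → ‖y‖ = 1 → -1 ≤ ⟪x, y⟫ ∧ ⟪x, y⟫ ≤ 1 := by
      intro x y hx hy
      have := abs_real_inner_le_norm x y
      rw [hx, hy, mul_one] at this
      exact abs_le.mp this
    have b1 := bd _ _ hqs hqv
    have b2 := bd _ _ hqv hqt
    have e1 : Real.cos α ≤ ⟪q s, q v⟫ := by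
      rw [← Real.cos_arccos b1.1 b1.2]
      exact Real.cos_le_cos_of_nonneg_of_le_pi (Real.arccos_nonneg _) a1 c1
    have e2 : Real.cos (Real.pi - α) ≤ ⟪q v, q t⟫ := by
      rw [← Real.cos_arccos b2.1 b2.2]
      exact Real.cos_le_cos_of_nonneg_of_le_pi (Real.arccos_nonneg _) (by linarith) c2
    rw [Real.cos_pi_sub] at e2
    unfold nrm
    rw [real_inner_smul_left, inner_add_left, real_inner_comm (q v) (q t)]
    apply mul_nonneg (inv_nonneg.mpr hxn.le)
    linarith
  have hlh := hLH V M L p q h h' a l s t k th r lam om Sp Sq LM LE FA F SW i hi hgap hd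
    (nrm (q s + q t)) hm (by
      intro d hbd
      have h1 := key d.fst ⟨d, rfl, bd_E0 hbd⟩
      have h2 : 0 ≤ ⟪nrm (r i + r (i + 1)), p d.fst⟫ := by
        rcases bd_ray F hi hbd with ⟨⟨c, hc, he⟩, _, _⟩ | ⟨⟨c, hc, he⟩, _, _⟩
        · rw [he, inner_add_right, real_inner_smul_right, real_inner_smul_right, n1, hν_a,
            mul_zero, add_zero]
          positivity
        · rw [he, inner_add_right, real_inner_smul_right, real_inner_smul_right, n2, hν_a,
            mul_zero, add_zero]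
          positivity
      linarith) hcov
  obtain ⟨d, c, hbd, hc, he⟩ := strict_dart Sp.inc FA F hi
  have h1 := hlh d hbd
  have h2 := key d.fst ⟨d, rfl, bd_E0 hbd⟩
  rw [h1, he, inner_add_right, real_inner_smul_right, real_inner_smul_right, n2, hν_a] at h2
  have h3 : 0 < c * (‖r i + r (i + 1)‖ / 2) := by positivity
  linarith

end Pool.Agent.Helper30.N9
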